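import Pool.Agent.Helper69.ES.DefsR
import Pool.Agent.Helper69.ES.Easy

/-!
# ES with a rate: block R1r, from cells to points
-/

set_option autoImplicit false
open MeasureTheory Set Filter Topology
open Pool.Agent.Helper57.Zeta Pool.Agent.Helper57.PC Pool.Agent.Helper57.LH Pool.Agent.Helper78.SG
open Pool.Agent.Helper4.SH Pool.Agent.Helper69.PP Pool.Agent.Helper22.SI
open Pool.Agent.Helper69.SM (wt)
open Pool.Agent.Helper69.ES
open scoped ENNReal

namespace Pool.Agent.Helper62.ESR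

/-- for one `K`: if `t` is bad, the cell after the one of `t` is clear -/
theorem bad_one {c K : ℝ} (hK : 1 ≤ K) {m : ℝ} (hm : 0 < m)
    (hM : ∀ᶠ x : ℝ in atTop, ∀ J : Finset ℕ, InW K x J → Clear c K x J → (J.card : ℝ) * (K / Real.log x) ≤ m * x) :
    ∀ᶠ x : ℝ in atTop,
      volume {t : ℝ | t ∈ Icc (11 * x / 8) (13 * x / 8) ∧
        ∀ ρ : ZS, t ≤ (ρ : ℂ).im → (ρ : ℂ).im ≤ t + 2 * K / Real.log x → ¬ Pool.Agent.Helper69.SM.CloseC c x ρ} ≤
        ENNReal.ofReal (2 * m * x) := by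
  classical
  filter_upwards [hM, eventually_ge_atTop (max (Real.exp 1) (2 * K / m))] with x hMx hx
  have hxe : Real.exp 1 ≤ x := (le_max_left _ _).trans hx
  have hxd : 2 * K / m ≤ x := (le_max_right _ _).trans hx
  have hx1 : 1 < x := lt_of_lt_of_le (Real.one_lt_exp_iff.2 one_pos) hxe
  have hx0 : 0 < x := by linarith
  have hL1 : 1 ≤ Real.log x := by
    rw [← Real.log_exp 1]
    exact Real.log_le_log (Real.exp_pos 1) hxe
  have hL0 : 0 < Real.log x := by linarith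
  obtain ⟨l, hl⟩ : ∃ l : ℝ, l = K / Real.log x := ⟨_, rfl⟩
  have hl0 : 0 < l := by rw [hl]; exact div_pos (by linarith) hL0
  have hlK : l ≤ K := by rw [hl]; exact div_le_self (by linarith) hL1
  have hlf : ∀ j : ℕ, lf K x j = 11 * x / 8 + j * l := fun j => by rw [hl]; rfl
  set J : Finset ℕ := (Finset.range ⌊x / 4 / l⌋₊).filter
    (fun j => lf K x (j + 1) ≤ 13 * x / 8 ∧ Clear c K x {j}) with hJ
  have hJW : InW K x J := fun j hj => (Finset.mem_filter.1 hj).2.1
  have hJC : Clear c K x J := fun j hj => (Finset.mem_filter.1 hj).2.2 j (Finset.mem_singleton_self j)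
  have hcard := hMx J hJW hJC
  rw [← hl] at hcard
  have hsub : {t : ℝ | t ∈ Icc (11 * x / 8) (13 * x / 8) ∧
      ∀ ρ : ZS, t ≤ (ρ : ℂ).im → (ρ : ℂ).im ≤ t + 2 * K / Real.log x → ¬ Pool.Agent.Helper69.SM.CloseC c x ρ} ⊆
      (⋃ j ∈ J, Icc (lf K x j - l) (lf K x j)) ∪ Icc (13 * x / 8 - 2 * l) (13 * x / 8) := by
    rintro t ⟨⟨ht1, ht2⟩, ht⟩
    have h2l : 2 * K / Real.log x = 2 * l := by rw [hl]; ring
    rw [h2l] at ht
    set i : ℕ := ⌊(t - 11 * x / 8) / l⌋₊ with hi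
    have hi0 : 0 ≤ (t - 11 * x / 8) / l := div_nonneg (by linarith) hl0.le
    have hi1 : (i : ℝ) ≤ (t - 11 * x / 8) / l := Nat.floor_le hi0
    have hi2 : (t - 11 * x / 8) / l < i + 1 := Nat.lt_floor_add_one _
    rw [le_div_iff₀ hl0] at hi1
    rw [div_lt_iff₀ hl0] at hi2
    by_cases hc1 : lf K x (i + 1 + 1) ≤ 13 * x / 8
    · left
      refine mem_biUnion (x := i + 1) ?_ ?_
      · rw [hJ, Finset.mem_coe, Finset.mem_filter, Finset.mem_range]
        refine ⟨?_, hc1, ?_⟩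
        · rw [hlf] at hc1
          push_cast at hc1
          have h1 : ((i + 1 + 1 : ℕ) : ℝ) ≤ x / 4 / l := by
            rw [le_div_iff₀ hl0]
            push_cast
            linarith
          have h2 : i + 1 + 1 ≤ ⌊x / 4 / l⌋₊ := Nat.le_floor h1
          omega
        · intro j hj ρ h1 h2
          rw [Finset.mem_singleton] at hj
          rw [hj, hlf] at h1
          rw [hj, hlf] at h2
          push_cast at h1 h2
          exact ht ρ (by nlinarith) (by nlinarith)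
      · rw [hlf]
        push_cast
        constructor <;> nlinarith
    · right
      rw [not_le, hlf] at hc1
      push_cast at hc1
      constructor
      · nlinarith
      · exact ht2
  have hfin : (J.card : ℝ) * l + 2 * l ≤ 2 * m * x := by
    have h1 : 2 * K ≤ m * x := by
      rw [div_le_iff₀ hm] at hxd
      linarith
    linarith
  calc volume {t : ℝ | t ∈ Icc (11 * x / 8) (13 * x / 8) ∧
        ∀ ρ : ZS, t ≤ (ρ : ℂ).im → (ρ : ℂ).im ≤ t + 2 * K / Real.log x → ¬ Pool.Agent.Helper69.SM.CloseC c x ρ}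
      ≤ volume ((⋃ j ∈ J, Icc (lf K x j - l) (lf K x j)) ∪ Icc (13 * x / 8 - 2 * l) (13 * x / 8)) := measure_mono hsub
    _ ≤ volume (⋃ j ∈ J, Icc (lf K x j - l) (lf K x j)) + volume (Icc (13 * x / 8 - 2 * l) (13 * x / 8)) :=
        measure_union_le _ _
    _ ≤ (∑ j ∈ J, volume (Icc (lf K x j - l) (lf K x j))) + volume (Icc (13 * x / 8 - 2 * l) (13 * x / 8)) :=
        add_le_add_left (measure_biUnion_finset_le _ _) _
    _ = ENNReal.ofReal ((J.card : ℝ) * l) + ENNReal.ofReal (2 * l) := by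
        simp only [Real.volume_Icc, sub_sub_cancel, Finset.sum_const, nsmul_eq_mul]
        rw [ENNReal.ofReal_mul (Nat.cast_nonneg _), ENNReal.ofReal_natCast]
    _ = ENNReal.ofReal ((J.card : ℝ) * l + 2 * l) := (ENNReal.ofReal_add (by positivity) (by positivity)).symm
    _ ≤ ENNReal.ofReal (2 * m * x) := ENNReal.ofReal_le_ofReal hfin

/-- R1r over `cells_rate` -/
theorem bad_rate_of {c : ℝ}
    (hM : ∃ C κ : ℝ, 0 < C ∧ 0 < κ ∧ ∀ K : ℝ, 1 ≤ K → ∀ᶠ x : ℝ in atTop, ∀ J : Finset ℕ, InW K x J → Clear c K x J →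
      (J.card : ℝ) * (K / Real.log x) ≤ C * K ^ (-κ) * x) :
    ∃ C κ : ℝ, 0 < C ∧ 0 < κ ∧ ∀ K : ℝ, 1 ≤ K → ∀ᶠ x : ℝ in atTop,
      volume {t : ℝ | t ∈ Icc (11 * x / 8) (13 * x / 8) ∧
        ∀ ρ : ZS, t ≤ (ρ : ℂ).im → (ρ : ℂ).im ≤ t + K / Real.log x → ¬ Pool.Agent.Helper69.SM.CloseC c x ρ} ≤
        ENNReal.ofReal (C * K ^ (-κ) * x) := by
  obtain ⟨C, κ, hC, hκ, hM⟩ := hM
  have h2 : (0 : ℝ) < 2 ^ κ := Real.rpow_pos_of_pos two_pos _
  refine ⟨(2 * C + 1) * 2 ^ κ, κ, by positivity, hκ, fun K hK => ?_⟩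
  have hK0 : 0 < K := by linarith
  have hKk : 0 < K ^ (-κ) := Real.rpow_pos_of_pos hK0 _
  have e1 : (K / 2) ^ (-κ) = 2 ^ κ * K ^ (-κ) := by
    rw [Real.div_rpow hK0.le (by norm_num), Real.rpow_neg (by norm_num : (0:ℝ) ≤ 2)]
    field_simp
  rcases le_or_gt 2 K with h | h
  · have h3 := bad_one (c := c) (K := K / 2) (by linarith) (by positivity : 0 < C * (K / 2) ^ (-κ)) (hM (K / 2) (by linarith))
    filter_upwards [h3, eventually_gt_atTop 0] with x hx hx0
    rw [show 2 * (K / 2) = K by ring] at hx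
    refine hx.trans (ENNReal.ofReal_le_ofReal ?_)
    rw [e1]
    have h4 : 0 ≤ 2 ^ κ * K ^ (-κ) * x := by positivity
    nlinarith
  · filter_upwards [eventually_gt_atTop 0] with x hx0
    refine (measure_mono (t := Icc (11 * x / 8) (13 * x / 8)) fun t ht => ht.1).trans ?_
    rw [Real.volume_Icc]
    refine ENNReal.ofReal_le_ofReal ?_
    have h4 : 1 ≤ 2 ^ κ * K ^ (-κ) := by
      rw [← e1]
      exact Real.one_le_rpow_of_pos_of_le_one_of_nonpos (by positivity) (by linarith) (by linarith)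
    have h5 : x ≤ 2 ^ κ * K ^ (-κ) * x := le_mul_of_one_le_left hx0.le h4
    nlinarith
 
end Pool.Agent.Helper62.ESR
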