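import Mathlib

/-!
# ES: block L1, the smoothing lemma, abstract part
-/

set_option autoImplicit false
open MeasureTheory Set Filter Topology
open scoped ENNReal

namespace Pool.Agent.Helper62.ES

/-- indicator function with real values -/
noncomputable def ind (S : Set ℝ) (t : ℝ) : ℝ := S.indicator (fun _ => (1 : ℝ)) t

theorem ind_one {S : Set ℝ} {t : ℝ} (h : t ∈ S) : ind S t = 1 := indicator_of_mem h _
theorem ind_zero {S : Set ℝ} {t : ℝ} (h : t ∉ S) : ind S t = 0 := indicator_of_notMem h _
theorem ind_nonneg (S : Set ℝ) (t : ℝ) : 0 ≤ ind S t := indicator_nonneg (fun _ _ => zero_le_one) t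
theorem ind_le (S : Set ℝ) (t : ℝ) : ind S t ≤ 1 := by
  by_cases h : t ∈ S
  · rw [ind_one h]
  · rw [ind_zero h]; exact zero_le_one
theorem ind_abs (S : Set ℝ) (t : ℝ) : |ind S t| ≤ 1 := by
  rw [abs_of_nonneg (ind_nonneg S t)]
  exact ind_le S t
theorem ind_meas {S : Set ℝ} (hS : MeasurableSet S) : Measurable (ind S) := measurable_const.indicator hS

/-- the union of the cells -/
def Un (p q : ℕ → ℝ) (J : Finset ℕ) : Set ℝ := ⋃ j ∈ J, Icc (p j) (q j)

theorem Un_meas (p q : ℕ → ℝ) (J : Finset ℕ) : MeasurableSet (Un p q J) :=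
  Finset.measurableSet_biUnion _ fun _ _ => measurableSet_Icc

theorem ind_diff (p q : ℕ → ℝ) (J : Finset ℕ) (t u : ℝ) :
    |ind (Un p q J) t - ind (Un p q J) u| ≤ ∑ j ∈ J, |ind (Icc (p j) (q j)) t - ind (Icc (p j) (q j)) u| := by
  have h0 : 0 ≤ ∑ j ∈ J, |ind (Icc (p j) (q j)) t - ind (Icc (p j) (q j)) u| :=
    Finset.sum_nonneg fun _ _ => abs_nonneg _
  have key : ∀ a b : ℝ, a ∈ Un p q J → b ∉ Un p q J →
      ∃ j ∈ J, |ind (Icc (p j) (q j)) a - ind (Icc (p j) (q j)) b| = 1 := by
    intro a b ha hb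
    unfold Un at ha hb
    simp only [mem_iUnion, not_exists] at ha hb
    obtain ⟨j, hj, haj⟩ := ha
    refine ⟨j, hj, ?_⟩
    rw [ind_one haj, ind_zero (hb j hj)]
    norm_num
  by_cases ht : t ∈ Un p q J
  · by_cases hu : u ∈ Un p q J
    · rw [ind_one ht, ind_one hu, sub_self, abs_zero]
      exact h0
    · obtain ⟨j, hj, h1⟩ := key t u ht hu
      rw [ind_one ht, ind_zero hu, sub_zero, abs_one, ← h1]
      exact Finset.single_le_sum (f := fun j => |ind (Icc (p j) (q j)) t - ind (Icc (p j) (q j)) u|)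
        (fun _ _ => abs_nonneg _) hj
  · by_cases hu : u ∈ Un p q J
    · obtain ⟨j, hj, h1⟩ := key u t hu ht
      rw [ind_zero ht, ind_one hu, zero_sub, abs_neg, abs_one, ← h1, abs_sub_comm]
      exact Finset.single_le_sum (f := fun j => |ind (Icc (p j) (q j)) t - ind (Icc (p j) (q j)) u|)
        (fun _ _ => abs_nonneg _) hj
    · rw [ind_zero ht, ind_zero hu, sub_self, abs_zero]
      exact h0

theorem cell_pt (p q v t : ℝ) : |ind (Icc p q) t - ind (Icc p q) (t - v)| ≤
    ind (Icc (p - |v|) (p + |v|)) t + ind (Icc (q - |v|) (q + |v|)) t := by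
  have n1 := ind_nonneg (Icc (p - |v|) (p + |v|)) t
  have n2 := ind_nonneg (Icc (q - |v|) (q + |v|)) t
  have hv1 := le_abs_self v
  have hv2 := neg_abs_le v
  have key : (t ∈ Icc (p - |v|) (p + |v|) ∨ t ∈ Icc (q - |v|) (q + |v|)) →
      1 ≤ ind (Icc (p - |v|) (p + |v|)) t + ind (Icc (q - |v|) (q + |v|)) t := by
    rintro (h | h)
    · rw [ind_one h]; linarith
    · rw [ind_one h]; linarith
  by_cases h1 : t ∈ Icc p q
  · by_cases h2 : t - v ∈ Icc p q
    · rw [ind_one h1, ind_one h2, sub_self, abs_zero]; linarith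
    · rw [ind_one h1, ind_zero h2, sub_zero, abs_one]
      refine key ?_
      rw [mem_Icc, not_and_or, not_le, not_le] at h2
      rcases h2 with h2 | h2
      · left
        constructor <;> linarith [h1.1, h1.2]
      · right
        constructor <;> linarith [h1.1, h1.2]
  · by_cases h2 : t - v ∈ Icc p q
    · rw [ind_zero h1, ind_one h2, zero_sub, abs_neg, abs_one]
      refine key ?_
      rw [mem_Icc, not_and_or, not_le, not_le] at h1
      rcases h1 with h1 | h1
      · left
        constructor <;> linarith [h2.1, h2.2]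
      · right
        constructor <;> linarith [h2.1, h2.2]
    · rw [ind_zero h1, ind_zero h2, sub_self, abs_zero]; linarith

theorem lint_ind {S : Set ℝ} (hS : MeasurableSet S) : ∫⁻ t, ENNReal.ofReal (ind S t) = volume S := by
  have e : ∀ t, ENNReal.ofReal (ind S t) = S.indicator (fun _ => (1 : ℝ≥0∞)) t := by
    intro t
    by_cases h : t ∈ S
    · rw [ind_one h, indicator_of_mem h, ENNReal.ofReal_one]
    · rw [ind_zero h, indicator_of_notMem h, ENNReal.ofReal_zero]
  simp_rw [e]
  rw [lintegral_indicator hS, setLIntegral_const, one_mul]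

theorem shift_un (p q : ℕ → ℝ) (J : Finset ℕ) (v : ℝ) :
    ∫⁻ t, ENNReal.ofReal |ind (Un p q J) t - ind (Un p q J) (t - v)| ≤ ENNReal.ofReal (4 * J.card * |v|) := by
  have h1 : ∀ t, ENNReal.ofReal |ind (Un p q J) t - ind (Un p q J) (t - v)| ≤
      ∑ j ∈ J, (ENNReal.ofReal (ind (Icc (p j - |v|) (p j + |v|)) t) +
        ENNReal.ofReal (ind (Icc (q j - |v|) (q j + |v|)) t)) := by
    intro t
    have h2 : |ind (Un p q J) t - ind (Un p q J) (t - v)| ≤
        ∑ j ∈ J, (ind (Icc (p j - |v|) (p j + |v|)) t + ind (Icc (q j - |v|) (q j + |v|)) t) :=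
      (ind_diff p q J t (t - v)).trans (Finset.sum_le_sum fun j _ => cell_pt _ _ _ _)
    refine (ENNReal.ofReal_le_ofReal h2).trans ?_
    rw [ENNReal.ofReal_sum_of_nonneg fun j _ => add_nonneg (ind_nonneg _ _) (ind_nonneg _ _)]
    exact Finset.sum_le_sum fun j _ => (ENNReal.ofReal_add (ind_nonneg _ _) (ind_nonneg _ _)).le
  refine (lintegral_mono h1).trans ?_
  have hm : ∀ a b : ℝ, Measurable fun t => ENNReal.ofReal (ind (Icc a b) t) := fun a b =>
    ENNReal.measurable_ofReal.comp (ind_meas measurableSet_Icc)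
  have hm2 : ∀ j ∈ J, Measurable fun t => (ENNReal.ofReal (ind (Icc (p j - |v|) (p j + |v|)) t) +
        ENNReal.ofReal (ind (Icc (q j - |v|) (q j + |v|)) t)) := fun j _ => (hm _ _).add (hm _ _)
  rw [lintegral_finsetSum _ hm2]
  have h3 : ∀ j ∈ J, ∫⁻ t, (ENNReal.ofReal (ind (Icc (p j - |v|) (p j + |v|)) t) +
        ENNReal.ofReal (ind (Icc (q j - |v|) (q j + |v|)) t)) = ENNReal.ofReal (4 * |v|) := by
    intro j _
    rw [lintegral_add_left (hm _ _), lint_ind measurableSet_Icc, lint_ind measurableSet_Icc, Real.volume_Icc,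
      Real.volume_Icc, ← ENNReal.ofReal_add (by linarith [abs_nonneg v]) (by linarith [abs_nonneg v])]
    congr 1
    ring
  rw [Finset.sum_congr rfl h3, Finset.sum_const, nsmul_eq_mul, ← ENNReal.ofReal_natCast,
    ← ENNReal.ofReal_mul (Nat.cast_nonneg _)]
  exact ENNReal.ofReal_le_ofReal (by nlinarith [abs_nonneg v])

/-- the smoothed indicator -/
noncomputable def psi (φ : ℝ → ℝ) (S : Set ℝ) (t : ℝ) : ℝ := ∫ v, φ v * ind S (t - v)

theorem psi_int {φ : ℝ → ℝ} (hφ : Integrable φ) {S : Set ℝ} (hS : MeasurableSet S) (t : ℝ) :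
    Integrable fun v => φ v * ind S (t - v) := by
  refine hφ.norm.mono' (hφ.aestronglyMeasurable.mul
    ((ind_meas hS).comp (measurable_const.sub measurable_id)).aestronglyMeasurable)
    (Eventually.of_forall fun v => ?_)
  rw [Real.norm_eq_abs, abs_mul, Real.norm_eq_abs]
  exact mul_le_of_le_one_right (abs_nonneg _) (ind_abs _ _)

theorem psi_meas {φ : ℝ → ℝ} (hc : Continuous φ) {S : Set ℝ} (hS : MeasurableSet S) : Measurable (psi φ S) := by
  have h1 : StronglyMeasurable fun z : ℝ × ℝ => φ z.2 * ind S (z.1 - z.2) :=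
    ((hc.measurable.comp measurable_snd).mul ((ind_meas hS).comp (measurable_fst.sub measurable_snd))).stronglyMeasurable
  exact h1.integral_prod_right'.measurable

theorem psi_abs {φ : ℝ → ℝ} (hφ : Integrable φ) {S : Set ℝ} (hS : MeasurableSet S) (t : ℝ) :
    |psi φ S t| ≤ ∫ v, |φ v| := by
  unfold psi
  refine (abs_integral_le_integral_abs).trans (integral_mono (psi_int hφ hS t).abs hφ.abs fun v => ?_)
  simp only [abs_mul]
  exact mul_le_of_le_one_right (abs_nonneg _) (ind_abs _ _)

/-- the `L¹` norm of `1_S - 1_S * φ` -/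
theorem psi_L1 {φ : ℝ → ℝ} (hc : Continuous φ) (hφ : Integrable φ) (h1 : ∫ v, φ v = 1)
    (hm : Integrable fun v => |v| * |φ v|) (p q : ℕ → ℝ) (J : Finset ℕ) :
    ∫⁻ t, ENNReal.ofReal |ind (Un p q J) t - psi φ (Un p q J) t| ≤
      ENNReal.ofReal (4 * J.card * ∫ v, |v| * |φ v|) := by
  set S := Un p q J with hS
  have hSm : MeasurableSet S := Un_meas p q J
  have e1 : ∀ t, ind S t - psi φ S t = ∫ v, φ v * (ind S t - ind S (t - v)) := by
    intro t
    have h2 : ∫ v, φ v * (ind S t - ind S (t - v)) = (∫ v, φ v * ind S t) - ∫ v, φ v * ind S (t - v) := by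
      rw [← integral_sub (hφ.mul_const _) (psi_int hφ hSm t)]
      congr 1
      ext v
      ring
    rw [h2, integral_mul_const, h1, one_mul]
    rfl
  have h2 : ∀ t, ENNReal.ofReal |ind S t - psi φ S t| ≤
      ∫⁻ v, ENNReal.ofReal |φ v| * ENNReal.ofReal |ind S t - ind S (t - v)| := by
    intro t
    rw [e1]
    have h3 := enorm_integral_le_lintegral_enorm (μ := volume) (fun v => φ v * (ind S t - ind S (t - v)))
    have e2 : ∀ y : ℝ, ‖y‖ₑ = ENNReal.ofReal |y| := fun y => by
      rw [← Real.norm_eq_abs, ofReal_norm]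
    rw [e2] at h3
    refine h3.trans (le_of_eq ?_)
    congr 1
    ext v
    rw [e2, abs_mul, ENNReal.ofReal_mul (abs_nonneg _)]
  refine (lintegral_mono h2).trans ?_
  have hmeas : Measurable (Function.uncurry fun (t v : ℝ) => ENNReal.ofReal |φ v| * ENNReal.ofReal |ind S t - ind S (t - v)|) := by
    have hm1 : Measurable fun z : ℝ × ℝ => ENNReal.ofReal |φ z.2| :=
      ENNReal.measurable_ofReal.comp (hc.abs.measurable.comp measurable_snd)
    have hm2 : Measurable fun z : ℝ × ℝ => ENNReal.ofReal |ind S z.1 - ind S (z.1 - z.2)| := by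
      have hm3 : Measurable fun z : ℝ × ℝ => ind S z.1 - ind S (z.1 - z.2) :=
        ((ind_meas hSm).comp measurable_fst).sub ((ind_meas hSm).comp (measurable_fst.sub measurable_snd))
      exact ENNReal.measurable_ofReal.comp (_root_.continuous_abs.measurable.comp hm3)
    exact hm1.mul hm2
  rw [lintegral_lintegral_swap hmeas.aemeasurable]
  have h4 : ∀ v, ∫⁻ t, ENNReal.ofReal |φ v| * ENNReal.ofReal |ind S t - ind S (t - v)| ≤
      ENNReal.ofReal (4 * J.card * (|v| * |φ v|)) := by
    intro v
    rw [lintegral_const_mul' _ _ ENNReal.ofReal_ne_top]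
    refine (mul_le_mul_right (shift_un p q J v) _).trans (le_of_eq ?_)
    rw [← ENNReal.ofReal_mul (abs_nonneg _)]
    congr 1
    ring
  refine (lintegral_mono h4).trans (le_of_eq ?_)
  rw [← ofReal_integral_eq_lintegral_ofReal (hm.const_mul _) (Eventually.of_forall fun v => by positivity),
    integral_const_mul]

/-- smoothing: the main identity with error -/
theorem core {φ F w : ℝ → ℝ} (hc : Continuous φ) (hφ : Integrable φ)
    (hm : ∀ γ, Integrable fun v => |v - γ| * |φ (v - γ)|) {M A Kw : ℝ} (hM : ∀ γ, ∫ v, |v - γ| * |φ (v - γ)| ≤ M)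
    (hF : Continuous F) (hA : ∀ t, |F t| ≤ A) (hw : Continuous w) (hwi : Integrable w) (hKw : 0 ≤ Kw)
    (hlip : ∀ t u, |w t - w u| ≤ Kw * |u - t|) {S : Set ℝ} (hS : MeasurableSet S) (hSf : volume S ≠ ⊤)
    (hS1 : ∀ u ∈ S, w u = 1) :
    |(∫ t in S, F t) - ∫ u in S, ∫ t, F t * φ (t - u)| ≤
      (volume S).toReal * (A * Kw * M) + |∫ t, w t * F t * (ind S t - psi φ S t)| := by
  have hA0 : 0 ≤ A := (abs_nonneg _).trans (hA 0)
  have : IsFiniteMeasure (volume.restrict S) := ⟨by rw [Measure.restrict_apply_univ]; exact hSf.lt_top⟩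
  have hcu : ∀ u : ℝ, Continuous fun t => φ (t - u) := fun u => hc.comp (continuous_id.sub continuous_const)
  have hiu : ∀ u : ℝ, Integrable fun t => φ (t - u) := fun u => hφ.comp_sub_right u
  -- bound of `w`
  obtain ⟨W, hW⟩ : ∃ W : ℝ, ∀ t, |w t * F t| ≤ W := by
    by_cases hne : S.Nonempty
    · obtain ⟨u0, hu0⟩ := hne
      -- `w` integrable and Lipschitz, hence bounded
      have hb : ∃ W0 : ℝ, ∀ t, |w t| ≤ W0 := by
        refine ⟨2 * Kw + ∫ s, |w s|, fun t => ?_⟩
        have h1 : ∀ s ∈ Icc t (t + 1), |w t| - Kw ≤ |w s| := by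
          intro s hs
          have h2 := hlip t s
          have h3 : |s - t| ≤ 1 := by rw [abs_le]; constructor <;> linarith [hs.1, hs.2]
          have h4 := abs_sub_abs_le_abs_sub (w t) (w s)
          nlinarith
        have h5 : (|w t| - Kw) ≤ ∫ s in Icc t (t + 1), |w s| := by
          have h6 : ∫ _ in Icc t (t + 1), (|w t| - Kw) ≤ ∫ s in Icc t (t + 1), |w s| :=
            setIntegral_mono_on (integrableOn_const (by simp) (by simp)) hwi.abs.integrableOn measurableSet_Icc h1
          rw [setIntegral_const, Real.volume_real_Icc_of_le (by linarith), smul_eq_mul] at h6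
          linarith
        have h7 : ∫ s in Icc t (t + 1), |w s| ≤ ∫ s, |w s| :=
          setIntegral_le_integral hwi.abs (Eventually.of_forall fun s => abs_nonneg _)
        linarith
      obtain ⟨W0, hW0⟩ := hb
      refine ⟨W0 * A, fun t => ?_⟩
      rw [abs_mul]
      exact mul_le_mul (hW0 t) (hA t) (abs_nonneg _) ((abs_nonneg _).trans (hW0 t))
    · refine ⟨(2 * Kw + ∫ s, |w s|) * A, fun t => ?_⟩
      have h1 : ∀ s ∈ Icc t (t + 1), |w t| - Kw ≤ |w s| := by
        intro s hs
        have h2 := hlip t s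
        have h3 : |s - t| ≤ 1 := by rw [abs_le]; constructor <;> linarith [hs.1, hs.2]
        have h4 := abs_sub_abs_le_abs_sub (w t) (w s)
        nlinarith
      have h5 : (|w t| - Kw) ≤ ∫ s in Icc t (t + 1), |w s| := by
        have h6 : ∫ _ in Icc t (t + 1), (|w t| - Kw) ≤ ∫ s in Icc t (t + 1), |w s| :=
          setIntegral_mono_on (integrableOn_const (by simp) (by simp)) hwi.abs.integrableOn measurableSet_Icc h1
        rw [setIntegral_const, Real.volume_real_Icc_of_le (by linarith), smul_eq_mul] at h6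
        linarith
      have h7 : ∫ s in Icc t (t + 1), |w s| ≤ ∫ s, |w s| :=
        setIntegral_le_integral hwi.abs (Eventually.of_forall fun s => abs_nonneg _)
      rw [abs_mul]
      exact mul_le_mul (by linarith) (hA t) (abs_nonneg _) (by linarith [abs_nonneg (w t)])
  have hi1 : ∀ u, Integrable fun t => F t * φ (t - u) := by
    intro u
    refine ((hiu u).abs.const_mul A).mono' (hF.mul (hcu u)).aestronglyMeasurable (Eventually.of_forall fun t => ?_)
    rw [Real.norm_eq_abs, abs_mul]
    exact mul_le_mul_of_nonneg_right (hA t) (abs_nonneg _)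
  have hi2 : ∀ u, Integrable fun t => w t * F t * φ (t - u) := by
    intro u
    refine ((hiu u).abs.const_mul W).mono' ((hw.mul hF).mul (hcu u)).aestronglyMeasurable
      (Eventually.of_forall fun t => ?_)
    rw [Real.norm_eq_abs, abs_mul]
    exact mul_le_mul_of_nonneg_right (hW t) (abs_nonneg _)
  -- joint integrability
  have hbase : Integrable (fun z : ℝ × ℝ => φ (z.2 - z.1)) ((volume.restrict S).prod volume) := by
    have hms : AEStronglyMeasurable (fun z : ℝ × ℝ => φ (z.2 - z.1)) ((volume.restrict S).prod volume) :=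
      (hc.comp (continuous_snd.sub continuous_fst)).aestronglyMeasurable
    rw [integrable_prod_iff hms]
    refine ⟨Eventually.of_forall fun u => hiu u, ?_⟩
    have e : ∀ u : ℝ, ∫ t, ‖φ (t - u)‖ = ∫ t, ‖φ t‖ := fun u => integral_sub_right_eq_self (fun t => ‖φ t‖) u
    simp only [e]
    exact integrable_const _
  have hjoint : ∀ G : ℝ → ℝ, Continuous G → ∀ B : ℝ, (∀ t, |G t| ≤ B) →
      Integrable (fun z : ℝ × ℝ => G z.2 * φ (z.2 - z.1)) ((volume.restrict S).prod volume) := by
    intro G hG B hB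
    refine (hbase.abs.const_mul B).mono'
      ((hG.comp continuous_snd).mul (hc.comp (continuous_snd.sub continuous_fst))).aestronglyMeasurable
      (Eventually.of_forall fun z => ?_)
    rw [Real.norm_eq_abs, abs_mul]
    exact mul_le_mul_of_nonneg_right (hB _) (abs_nonneg _)
  have hj1 := hjoint F hF A hA
  have hj2 := hjoint (fun t => w t * F t) (hw.mul hF) W hW
  have ho1 : Integrable (fun u => ∫ t, F t * φ (t - u)) (volume.restrict S) := hj1.integral_prod_left
  have ho2 : Integrable (fun u => ∫ t, w t * F t * φ (t - u)) (volume.restrict S) := hj2.integral_prod_left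
  -- the difference
  have hd : |(∫ u in S, ∫ t, F t * φ (t - u)) - ∫ u in S, ∫ t, w t * F t * φ (t - u)| ≤
      (volume S).toReal * (A * Kw * M) := by
    rw [← integral_sub ho1 ho2]
    have h1 : ∀ u ∈ S, ‖(∫ t, F t * φ (t - u)) - ∫ t, w t * F t * φ (t - u)‖ ≤ A * Kw * M := by
      intro u hu
      rw [← integral_sub (hi1 u) (hi2 u), Real.norm_eq_abs]
      refine (abs_integral_le_integral_abs).trans ?_
      have h2 : ∫ t, |F t * φ (t - u) - w t * F t * φ (t - u)| ≤ ∫ t, A * Kw * (|t - u| * |φ (t - u)|) := by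
        refine integral_mono ((hi1 u).sub (hi2 u)).abs ((hm u).const_mul _) fun t => ?_
        have e : F t * φ (t - u) - w t * F t * φ (t - u) = (w u - w t) * F t * φ (t - u) := by
          rw [hS1 u hu]
          ring
        simp only [e, abs_mul]
        have h3 := hlip u t
        calc |w u - w t| * |F t| * |φ (t - u)| ≤ (Kw * |t - u|) * A * |φ (t - u)| := by
              refine mul_le_mul_of_nonneg_right ?_ (abs_nonneg _)
              exact mul_le_mul h3 (hA t) (abs_nonneg _) (by positivity)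
          _ = A * Kw * (|t - u| * |φ (t - u)|) := by ring
      refine h2.trans ?_
      rw [integral_const_mul]
      exact mul_le_mul_of_nonneg_left (hM u) (by positivity)
    have h4 := norm_setIntegral_le_of_norm_le_const (hSf.lt_top) h1
    rw [Real.norm_eq_abs, Measure.real, mul_comm] at h4
    exact h4
  -- the swap
  have hsw : ∫ u in S, ∫ t, w t * F t * φ (t - u) = ∫ t, w t * F t * psi φ S t := by
    rw [integral_integral_swap hj2]
    congr 1
    ext t
    rw [integral_const_mul]
    congr 1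
    unfold psi
    have e1 : ∫ v, φ v * ind S (t - v) = ∫ u, φ (t - u) * ind S u := by
      rw [← integral_sub_left_eq_self (fun u => φ (t - u) * ind S u) volume t]
      congr 1
      ext v
      rw [sub_sub_cancel]
    rw [e1, ← integral_indicator hS]
    congr 1
    ext u
    by_cases hu : u ∈ S
    · rw [indicator_of_mem hu, ind_one hu, mul_one]
    · rw [indicator_of_notMem hu, ind_zero hu, mul_zero]
  have hFS : ∫ t in S, F t = ∫ t, w t * F t * ind S t := by
    rw [← integral_indicator hS]
    congr 1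
    ext t
    by_cases ht : t ∈ S
    · rw [indicator_of_mem ht, ind_one ht, hS1 t ht]
      ring
    · rw [indicator_of_notMem ht, ind_zero ht, mul_zero]
  have hk1 : Integrable fun t => w t * F t * ind S t := by
    refine (hwi.abs.const_mul A).mono' ((hw.mul hF).aestronglyMeasurable.mul (ind_meas hS).aestronglyMeasurable)
      (Eventually.of_forall fun t => ?_)
    rw [Real.norm_eq_abs, abs_mul, abs_mul]
    calc |w t| * |F t| * |ind S t| ≤ |w t| * A * 1 :=
          mul_le_mul (mul_le_mul_of_nonneg_left (hA t) (abs_nonneg _)) (ind_abs _ _) (abs_nonneg _) (by positivity)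
      _ = A * |w t| := by ring
  have hk2 : Integrable fun t => w t * F t * psi φ S t := by
    refine (hwi.abs.const_mul (A * ∫ v, |φ v|)).mono'
      ((hw.mul hF).aestronglyMeasurable.mul (psi_meas hc hS).aestronglyMeasurable)
      (Eventually.of_forall fun t => ?_)
    rw [Real.norm_eq_abs, abs_mul, abs_mul]
    calc |w t| * |F t| * |psi φ S t| ≤ |w t| * A * ∫ v, |φ v| :=
          mul_le_mul (mul_le_mul_of_nonneg_left (hA t) (abs_nonneg _)) (psi_abs hφ hS _) (abs_nonneg _) (by positivity)
      _ = A * (∫ v, |φ v|) * |w t| := by ring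
  have hfin : (∫ t in S, F t) - ∫ u in S, ∫ t, F t * φ (t - u) =
      (∫ t, w t * F t * (ind S t - psi φ S t)) -
        ((∫ u in S, ∫ t, F t * φ (t - u)) - ∫ u in S, ∫ t, w t * F t * φ (t - u)) := by
    have e : ∫ t, w t * F t * (ind S t - psi φ S t) = (∫ t, w t * F t * ind S t) - ∫ t, w t * F t * psi φ S t := by
      rw [← integral_sub hk1 hk2]
      congr 1
      ext t
      ring
    rw [e, ← hFS, ← hsw]
    ring
  rw [hfin]
  refine (abs_sub _ _).trans ?_
  linarith

end Pool.Agent.Helper62.ES
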