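import Pool.Agent.Helper62.ES.Smooth

/-!
# ES: the smoothing lemma with a power rate, from a mean square
-/

set_option autoImplicit false
open MeasureTheory Set Filter Topology
open Pool.Agent.Helper57.Zeta Pool.Agent.Helper57.PC Pool.Agent.Helper57.LH Pool.Agent.Helper78.SG
open Pool.Agent.Helper4.SH Pool.Agent.Helper69.PP Pool.Agent.Helper22.SI
open Pool.Agent.Helper69.SM (wt)
open Pool.Agent.Helper69.ES
open scoped ENNReal

namespace Pool.Agent.Helper62.ES

/-- the `L¹` norm of the kernel -/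
noncomputable def kc (h : ℝ → ℝ) : ℝ := 1 / (2 * Real.pi) * ∫ v, |ker h 0 v|

/-- its first moment -/
noncomputable def km (h : ℝ → ℝ) : ℝ := 1 / (2 * Real.pi) * ∫ v, |v| * |ker h 0 v|

theorem kc_nonneg (h : ℝ → ℝ) : 0 ≤ kc h :=
  mul_nonneg (by positivity) (integral_nonneg fun _ => abs_nonneg _)

theorem km_nonneg (h : ℝ → ℝ) : 0 ≤ km h :=
  mul_nonneg (by positivity) (integral_nonneg fun _ => mul_nonneg (abs_nonneg _) (abs_nonneg _))

theorem krs_mom (h : TF) {x : ℝ} (hx : 1 < x) :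
    ∫ v, |v| * |Real.log x / (2 * Real.pi) * krs h.h 1 x v| = km h.h / Real.log x := by
  have hL : 0 < Real.log x := Real.log_pos hx
  have e : ∀ v, |v| * |Real.log x / (2 * Real.pi) * krs h.h 1 x v| =
      1 / (2 * Real.pi) * (|Real.log x * v| * |ker h.h 0 (Real.log x * v)|) := by
    intro v
    unfold krs
    rw [abs_mul, abs_of_pos (by positivity : 0 < Real.log x / (2 * Real.pi)), one_mul, one_mul, abs_mul,
      abs_of_pos hL]
    ring
  simp_rw [e]
  rw [integral_const_mul]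
  have h4 := Measure.integral_comp_mul_left (fun v : ℝ => |v| * |ker h.h 0 v|) (Real.log x)
  rw [h4, smul_eq_mul, abs_of_pos (by positivity)]
  unfold km
  field_simp

/-- the smoothing lemma with a rate -/
theorem smooth_rate {g h : TF} (hg : GoodG g) (hh : h.h 0 = 1) (F : ℝ → ℝ → ℝ) (hFc : ∀ x, Continuous (F x))
    (hFb : Crude F) {C c1 : ℝ} (hC : 0 < C) (hF2 : ∀ᶠ x : ℝ in atTop, ∫ t, wt g.h x x t * F x t ^ 2 ≤ C * x)
    (hc1 : 0 < c1) (hm : (1 + kc h.h) * km h.h ≤ c1) {ε : ℝ} (hε : 0 < ε) {K : ℝ} (hK : 0 < K) :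
    ∀ᶠ x : ℝ in atTop, ∀ J : Finset ℕ, InW K x J →
      |(∫ t in St K 0 x J, F x t) - ∫ u in St K 0 x J, sm h F x u| ≤ (ε + Real.sqrt (C * c1 / K)) * x := by
  obtain ⟨κ, C0, hC0, hκ, hF⟩ := hFb
  obtain ⟨Kw, hKw, hlip⟩ := Pool.Agent.Helper69.SM.wt_lip g
  obtain ⟨C1, hC1, hmom⟩ := Pool.Agent.Helper69.SM.loc_moment h (le_refl (1 : ℝ))
  have hc0p : 0 ≤ kc h.h := kc_nonneg _
  have hgth : g.th = 1 / 4 := hg.1
  have hev := Pool.Agent.Helper69.SM.pow_ev2 (1 / 4 * (C0 * Kw * (C1 / (2 * Real.pi)))) (κ := κ) (b := 1) hκ hε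
  filter_upwards [hF, hF2, hev, eventually_ge_atTop (Real.exp 1)] with x hFx hF2x hevx hxe J hJ
  have hx1 : 1 < x := lt_of_lt_of_le (Real.one_lt_exp_iff.2 one_pos) hxe
  have hx0 : 0 < x := by linarith
  have hL1 : 1 ≤ Real.log x := by
    rw [← Real.log_exp 1]
    exact Real.log_le_log (Real.exp_pos 1) hxe
  have hL0 : 0 < Real.log x := by linarith
  set L := Real.log x with hLdef
  set φ : ℝ → ℝ := fun v => L / (2 * Real.pi) * krs h.h 1 x v with hφd
  have hφc : Continuous φ := continuous_const.mul (krs_cont h 1 x)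
  have hφi : Integrable φ := (krs_integrable h (le_refl (1 : ℝ)) hx1).const_mul _
  have hφ1 : ∫ v, φ v = 1 := krs_one h hh hx1
  have hφa : ∫ v, |φ v| = kc h.h := krs_abs h hx1
  have hpi : 0 < 2 * Real.pi := by positivity
  have hφe : ∀ γ v : ℝ, |v - γ| * |φ (v - γ)| = L / (2 * Real.pi) * (|v - γ| * |krs h.h 1 x (v - γ)|) := by
    intro γ v
    simp only [hφd]
    rw [abs_mul, abs_of_pos (by positivity : 0 < L / (2 * Real.pi))]
    ring
  have hφm : ∀ γ, Integrable fun v => |v - γ| * |φ (v - γ)| := by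
    intro γ
    simp only [hφe]
    exact (hmom x hx1 γ).1.const_mul _
  have hφM : ∀ γ, ∫ v, |v - γ| * |φ (v - γ)| ≤ C1 / (2 * Real.pi * L) := by
    intro γ
    simp only [hφe]
    rw [integral_const_mul]
    refine (mul_le_mul_of_nonneg_left (hmom x hx1 γ).2 (by positivity)).trans (le_of_eq ?_)
    rw [← hLdef]
    field_simp
  set S := St K 0 x J with hS
  have hSU : S = Un (fun j => lf K x j + 0 / Real.log x) (fun j => lf K x (j + 1) - 0 / Real.log x) J := rfl
  have hSm : MeasurableSet S := St_meas K 0 x J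
  have hSr : (volume S).toReal = J.card * (K / Real.log x) := St_real hx1 hK.le J
  have hcard : (J.card : ℝ) * (K / Real.log x) ≤ x / 4 := InW_card hx1 hK hJ
  have hSf : volume S ≠ ⊤ := by
    rw [hS, St_vol hx1 le_rfl (by linarith) J]
    exact ENNReal.ofReal_ne_top
  have hwc := Pool.Agent.Helper69.SM.wt_cont g x x
  have hwi := Pool.Agent.Helper69.SM.wt_integrable g x hx0
  have hw0 : ∀ t, 0 ≤ wt g.h x x t := fun t => hg.2.1 _
  have hw1 : ∀ t, wt g.h x x t ≤ 1 := fun t => hg.2.2.1 _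
  have hcore := core (φ := φ) (F := F x) (w := wt g.h x x) (M := C1 / (2 * Real.pi * L)) (A := C0 * x ^ κ)
    (Kw := Kw / x) hφc hφi hφm hφM (hFc x) hFx hwc hwi (by positivity) (fun t u => hlip x x hx0 t u) hSm hSf
    (fun u hu => wt_one hg hx0 (St_sub hx1 hK.le le_rfl hJ hu))
  have hsm : ∫ u in S, sm h F x u = ∫ u in S, ∫ t, F x t * φ (t - u) := by
    congr 1
    ext u
    unfold sm
    rw [← integral_const_mul]
    congr 1
    ext t
    simp only [hφd]
    ring
  rw [hsm]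
  refine hcore.trans ?_
  -- first term
  have ht1 : (volume S).toReal * (C0 * x ^ κ * (Kw / x) * (C1 / (2 * Real.pi * L))) ≤ ε * x := by
    rw [hSr]
    have h1 : (J.card : ℝ) * (K / Real.log x) * (C0 * x ^ κ * (Kw / x) * (C1 / (2 * Real.pi * L))) ≤
        x / 4 * (C0 * x ^ κ * (Kw / x) * (C1 / (2 * Real.pi * L))) :=
      mul_le_mul_of_nonneg_right hcard (by positivity)
    have h2 : x / 4 * (C0 * x ^ κ * (Kw / x) * (C1 / (2 * Real.pi * L))) =
        1 / 4 * (C0 * Kw * (C1 / (2 * Real.pi))) * x ^ κ / L := by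
      field_simp
    have h3 : 1 / 4 * (C0 * Kw * (C1 / (2 * Real.pi))) * x ^ κ / L ≤ 1 / 4 * (C0 * Kw * (C1 / (2 * Real.pi))) * x ^ κ :=
      div_le_self (by positivity) hL1
    rw [Real.rpow_one] at hevx
    linarith
  -- second term
  set D : ℝ → ℝ := fun t => ind S t - psi φ S t with hD
  have hDm : Measurable D := (ind_meas hSm).sub (psi_meas hφc hSm)
  have hDb : ∀ t, |D t| ≤ 1 + kc h.h := by
    intro t
    have h1 := psi_abs hφi hSm t
    rw [hφa] at h1
    have h2 := ind_abs S t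
    have h3 := abs_sub (ind S t) (psi φ S t)
    simp only [hD]
    linarith
  have hm0 : Integrable fun v => |v| * |φ v| := by simpa using hφm 0
  have hM0 : ∫ v, |v| * |φ v| = km h.h / L := krs_mom h hx1
  have hD1 : ∫⁻ t, ENNReal.ofReal |D t| ≤ ENNReal.ofReal (4 * J.card * (km h.h / L)) := by
    rw [← hM0]
    simp only [hD]
    rw [hSU]
    exact psi_L1 hφc hφi hφ1 hm0 _ _ J
  have hkm := km_nonneg h.h
  have hbd : (1 + kc h.h) * (4 * J.card * (km h.h / L)) ≤ c1 * x / K := by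
    have h4 : 4 * (J.card : ℝ) / L ≤ x / K := by
      rw [div_le_div_iff₀ hL0 hK]
      have h5 : (J.card : ℝ) * (K / Real.log x) * L = J.card * K := by
        rw [← hLdef]
        field_simp
      nlinarith
    have h5 : (1 + kc h.h) * (4 * J.card * (km h.h / L)) = (1 + kc h.h) * km h.h * (4 * J.card / L) := by
      field_simp
    have h6 : (1 + kc h.h) * km h.h * (4 * (J.card : ℝ) / L) ≤ c1 * (x / K) :=
      mul_le_mul hm h4 (by positivity) hc1.le
    rw [h5]
    refine h6.trans (le_of_eq ?_)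
    ring
  have hwD : Integrable fun t => wt g.h x x t * D t ^ 2 := by
    refine (hwi.norm.mul_const ((1 + kc h.h) ^ 2)).mono' (hwi.aestronglyMeasurable.mul
      (hDm.pow_const 2).aestronglyMeasurable) (Eventually.of_forall fun t => ?_)
    rw [Real.norm_eq_abs, abs_mul, Real.norm_eq_abs]
    refine mul_le_mul_of_nonneg_left ?_ (abs_nonneg _)
    rw [abs_pow]
    exact pow_le_pow_left₀ (abs_nonneg _) (hDb t) 2
  have hD2 : ∫ t, wt g.h x x t * D t ^ 2 ≤ c1 * x / K := by
    rw [integral_eq_lintegral_of_nonneg_ae (Eventually.of_forall fun t => mul_nonneg (hw0 t) (sq_nonneg _))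
      hwD.aestronglyMeasurable]
    refine ENNReal.toReal_le_of_le_ofReal (by positivity) ?_
    calc ∫⁻ t, ENNReal.ofReal (wt g.h x x t * D t ^ 2)
        ≤ ∫⁻ t, ENNReal.ofReal (1 + kc h.h) * ENNReal.ofReal |D t| := by
          refine lintegral_mono fun t => ?_
          rw [← ENNReal.ofReal_mul (by linarith)]
          refine ENNReal.ofReal_le_ofReal ?_
          have h1 : wt g.h x x t * D t ^ 2 ≤ 1 * D t ^ 2 := mul_le_mul_of_nonneg_right (hw1 t) (sq_nonneg _)
          have h2 : D t ^ 2 = |D t| * |D t| := by rw [← sq_abs, pow_two]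
          have h3 : |D t| * |D t| ≤ (1 + kc h.h) * |D t| := mul_le_mul_of_nonneg_right (hDb t) (abs_nonneg _)
          linarith
      _ = ENNReal.ofReal (1 + kc h.h) * ∫⁻ t, ENNReal.ofReal |D t| :=
          lintegral_const_mul _ (ENNReal.measurable_ofReal.comp (_root_.continuous_abs.measurable.comp hDm))
      _ ≤ ENNReal.ofReal (1 + kc h.h) * ENNReal.ofReal (4 * J.card * (km h.h / L)) := mul_le_mul_right hD1 _
      _ = ENNReal.ofReal ((1 + kc h.h) * (4 * J.card * (km h.h / L))) := (ENNReal.ofReal_mul (by linarith)).symm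
      _ ≤ ENNReal.ofReal (c1 * x / K) := ENNReal.ofReal_le_ofReal hbd
  have hwF : Integrable fun t => wt g.h x x t * F x t ^ 2 :=
    Pool.Agent.Helper69.SM.wt_mul_integrable g hgth hx0 ((hFc x).pow 2)
  have ht2 : |∫ t, wt g.h x x t * F x t * D t| ≤ Real.sqrt (C * c1 / K) * x := by
    obtain ⟨a, ha⟩ : ∃ a : ℝ, a = Real.sqrt (c1 / (C * K)) := ⟨_, rfl⟩
    have ha0 : 0 < a := by rw [ha]; positivity
    have ha2 : a ^ 2 = c1 / (C * K) := by rw [ha]; exact Real.sq_sqrt (by positivity)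
    have hs : Real.sqrt (C * c1 / K) = a * C := by
      have h1 : C * c1 / K = (a * C) ^ 2 := by
        rw [mul_pow, ha2]
        field_simp
      rw [h1, Real.sqrt_sq (by positivity)]
    have h1 : |∫ t, wt g.h x x t * F x t * D t| ≤
        ∫ t, (a / 2 * (wt g.h x x t * F x t ^ 2) + 1 / (2 * a) * (wt g.h x x t * D t ^ 2)) := by
      rw [← Real.norm_eq_abs]
      refine norm_integral_le_of_norm_le ((hwF.const_mul _).add (hwD.const_mul _))
        (Eventually.of_forall fun t => ?_)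
      rw [Real.norm_eq_abs, abs_mul, abs_mul, abs_of_nonneg (hw0 t)]
      have h2 : |F x t| * |D t| ≤ a / 2 * F x t ^ 2 + 1 / (2 * a) * D t ^ 2 := by
        rw [← sq_abs (F x t), ← sq_abs (D t)]
        have h3 : a / 2 * |F x t| ^ 2 + 1 / (2 * a) * |D t| ^ 2 - |F x t| * |D t| =
            1 / (2 * a) * (a * |F x t| - |D t|) ^ 2 := by
          field_simp
          ring
        have h4 : 0 ≤ 1 / (2 * a) * (a * |F x t| - |D t|) ^ 2 := by positivity
        linarith
      have h5 := mul_le_mul_of_nonneg_left h2 (hw0 t)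
      have h6 : wt g.h x x t * |F x t| * |D t| = wt g.h x x t * (|F x t| * |D t|) := by ring
      rw [h6]
      refine h5.trans (le_of_eq ?_)
      ring
    rw [integral_add (hwF.const_mul _) (hwD.const_mul _), integral_const_mul, integral_const_mul] at h1
    have h2 : a / 2 * (∫ t, wt g.h x x t * F x t ^ 2) ≤ a / 2 * (C * x) :=
      mul_le_mul_of_nonneg_left hF2x (by positivity)
    have h3 : 1 / (2 * a) * (∫ t, wt g.h x x t * D t ^ 2) ≤ 1 / (2 * a) * (c1 * x / K) :=
      mul_le_mul_of_nonneg_left hD2 (by positivity)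
    have h4 : 1 / (2 * a) * (c1 * x / K) = a / 2 * (C * x) := by
      have h5 : c1 = a ^ 2 * (C * K) := by
        rw [ha2]
        field_simp
      rw [h5]
      field_simp
    rw [hs]
    nlinarith
  have h5 : ε * x + Real.sqrt (C * c1 / K) * x = (ε + Real.sqrt (C * c1 / K)) * x := by ring
  linarith

/-- the dilated kernel -/
theorem ker_dil (h : ℝ → ℝ) {b : ℝ} (hb : 0 < b) (u : ℝ) :
    ker (fun y => h (y / b)) 0 u = b * ker h 0 (b * u) := by
  unfold Pool.Agent.Helper78.SG.ker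
  have h1 := Measure.integral_comp_div (fun y : ℝ => h y * (Real.cosh (0 * y) * Real.cos (b * u * y))) b
  rw [smul_eq_mul, abs_of_pos hb] at h1
  rw [← h1]
  congr 1
  ext y
  congr 2
  · simp
  · congr 1
    field_simp

theorem kc_dil (h : ℝ → ℝ) {b : ℝ} (hb : 0 < b) : kc (fun y => h (y / b)) = kc h := by
  unfold kc
  congr 1
  have e : ∀ v, |ker (fun y => h (y / b)) 0 v| = b * |ker h 0 (b * v)| := by
    intro v
    rw [ker_dil h hb, abs_mul, abs_of_pos hb]
  simp_rw [e]
  rw [integral_const_mul]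
  have h4 := Measure.integral_comp_mul_left (fun v : ℝ => |ker h 0 v|) b
  rw [h4, smul_eq_mul, abs_of_pos (by positivity)]
  field_simp

theorem km_dil (h : ℝ → ℝ) {b : ℝ} (hb : 0 < b) : km (fun y => h (y / b)) = km h / b := by
  unfold km
  have e : ∀ v, |v| * |ker (fun y => h (y / b)) 0 v| = |b * v| * |ker h 0 (b * v)| := by
    intro v
    rw [ker_dil h hb, abs_mul, abs_mul, abs_of_pos hb]
    ring
  simp_rw [e]
  have h4 := Measure.integral_comp_mul_left (fun v : ℝ => |v| * |ker h 0 v|) b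
  rw [h4, smul_eq_mul, abs_of_pos (by positivity)]
  field_simp

/-- kernels with small Fourier support and controlled constants -/
theorem kern_family : ∃ c1 : ℝ, 0 < c1 ∧ ∀ θ : ℝ, 0 < θ → θ ≤ 1 / 4 →
    ∃ h : TF, h.th ≤ θ ∧ (∀ y, |h.h y| ≤ 1) ∧ h.h 0 = 1 ∧ (1 + kc h.h) * km h.h ≤ c1 / θ := by
  obtain ⟨h1, hth, hb, h0⟩ := exists_hh (by norm_num : (0 : ℝ) < 1 / 4)
  have hk := kc_nonneg h1.h
  have hm := km_nonneg h1.h
  refine ⟨(1 + kc h1.h) * km h1.h / 4 + 1, by positivity, fun θ hθ hθ1 => ?_⟩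
  have hb4 : 0 < 4 * θ := by linarith
  refine ⟨⟨fun y => h1.h (y / (4 * θ)), 4 * θ * h1.th, h1.smooth.comp (contDiff_id.div_const _), fun y => ?_,
    mul_pos hb4 h1.th0, ?_, fun y hy => ?_⟩, ?_, fun y => hb _, ?_, ?_⟩
  · rw [neg_div]
    exact h1.even _
  · nlinarith
  · apply h1.supp
    rw [abs_div, abs_of_pos hb4, le_div_iff₀ hb4]
    linarith
  · show 4 * θ * h1.th ≤ θ
    nlinarith
  · show h1.h (0 / (4 * θ)) = 1
    rw [zero_div, h0]
  · show (1 + kc (fun y => h1.h (y / (4 * θ)))) * km (fun y => h1.h (y / (4 * θ))) ≤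
      ((1 + kc h1.h) * km h1.h / 4 + 1) / θ
    rw [kc_dil h1.h hb4, km_dil h1.h hb4, add_div]
    have e : (1 + kc h1.h) * (km h1.h / (4 * θ)) = (1 + kc h1.h) * km h1.h / 4 / θ := by
      field_simp
    rw [e]
    have : 0 < 1 / θ := by positivity
    linarith

end Pool.Agent.Helper62.ES
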