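import Pool.Agent.Helper69.ES.Easy
import Pool.Agent.Helper62.ES.Core

/-!
# ES: block L1, the smoothing lemma
-/

set_option autoImplicit false
open MeasureTheory Set Filter Topology
open Pool.Agent.Helper57.Zeta Pool.Agent.Helper57.PC Pool.Agent.Helper57.LH Pool.Agent.Helper78.SG
open Pool.Agent.Helper4.SH Pool.Agent.Helper69.PP Pool.Agent.Helper22.SI
open Pool.Agent.Helper69.SM (wt)
open Pool.Agent.Helper69.ES
open scoped ENNReal

namespace Pool.Agent.Helper62.ES

/-- the `L¹` norm of the kernel -/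
theorem krs_abs (h : TF) {x : ℝ} (hx : 1 < x) :
    ∫ v, |Real.log x / (2 * Real.pi) * krs h.h 1 x v| = 1 / (2 * Real.pi) * ∫ v, |ker h.h 0 v| := by
  have hL : 0 < Real.log x := Real.log_pos hx
  have e : ∀ v, |Real.log x / (2 * Real.pi) * krs h.h 1 x v| =
      Real.log x / (2 * Real.pi) * |ker h.h 0 (Real.log x * v)| := by
    intro v
    unfold krs
    rw [abs_mul, abs_of_pos (by positivity : 0 < Real.log x / (2 * Real.pi)), one_mul, one_mul]
  simp_rw [e]
  rw [integral_const_mul]
  have h4 := Measure.integral_comp_mul_left (fun v : ℝ => |ker h.h 0 v|) (Real.log x)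
  rw [h4, smul_eq_mul, abs_of_pos (by positivity)]
  field_simp

/-- the kernel has mean one -/
theorem krs_one (h : TF) (hh : h.h 0 = 1) {x : ℝ} (hx : 1 < x) :
    ∫ v, Real.log x / (2 * Real.pi) * krs h.h 1 x v = 1 := by
  have hL : 0 < Real.log x := Real.log_pos hx
  rw [integral_const_mul]
  have h1 := kernel_cos h (le_refl (1 : ℝ)) hx 0 0
  simp only [mul_zero, Real.cos_zero, one_mul, sub_zero, zero_div, hh, mul_one] at h1
  rw [h1]
  field_simp

/-- L1 -/
theorem smooth_lim {g h : TF} (hg : GoodG g) (hh : h.h 0 = 1) (F : ℝ → ℝ → ℝ) (hFc : ∀ x, Continuous (F x))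
    (hFb : Crude F) (hui : UIW g F) {ε : ℝ} (hε : 0 < ε) :
    ∃ K0 : ℝ, ∀ K : ℝ, K0 ≤ K → ∀ᶠ x : ℝ in atTop, ∀ J : Finset ℕ, InW K x J →
      |(∫ t in St K 0 x J, F x t) - ∫ u in St K 0 x J, sm h F x u| ≤ ε * x := by
  obtain ⟨κ, C0, hC0, hκ, hF⟩ := hFb
  obtain ⟨⟨C, hC, hCi⟩, hUI⟩ := hui
  obtain ⟨Kw, hKw, hlip⟩ := Pool.Agent.Helper69.SM.wt_lip g
  obtain ⟨C1, hC1, hmom⟩ := Pool.Agent.Helper69.SM.loc_moment h (le_refl (1 : ℝ))
  obtain ⟨c0, hc0⟩ : ∃ c0 : ℝ, c0 = 1 / (2 * Real.pi) * ∫ v, |ker h.h 0 v| := ⟨_, rfl⟩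
  have hc0p : 0 ≤ c0 := by
    rw [hc0]
    exact mul_nonneg (by positivity) (integral_nonneg fun v => abs_nonneg _)
  obtain ⟨lam, hlam⟩ : ∃ lam : ℝ, lam = ε / (4 * C) := ⟨_, rfl⟩
  have hlam0 : 0 < lam := by rw [hlam]; positivity
  obtain ⟨η, hη, hηi⟩ := hUI (ε / (4 * (1 + c0))) (by positivity)
  refine ⟨max 1 (C1 / (2 * Real.pi * lam * η)), fun K hK => ?_⟩
  have hK1 : 1 ≤ K := (le_max_left _ _).trans hK
  have hK2 : C1 / (2 * Real.pi * lam * η) ≤ K := (le_max_right _ _).trans hK
  have hgth : g.th = 1 / 4 := hg.1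
  have hev := Pool.Agent.Helper69.SM.pow_ev2 (1 / 4 * (C0 * Kw * (C1 / (2 * Real.pi)))) (κ := κ) (b := 1) hκ
    (by positivity : 0 < ε / 4)
  filter_upwards [hF, hCi, hηi, hev, eventually_ge_atTop (Real.exp 1)] with x hFx hCx hηx hevx hxe J hJ
  have hx1 : 1 < x := lt_of_lt_of_le (Real.one_lt_exp_iff.2 one_pos) hxe
  have hx0 : 0 < x := by linarith
  have hL1 : 1 ≤ Real.log x := by
    rw [← Real.log_exp 1]
    exact Real.log_le_log (Real.exp_pos 1) hxe
  have hL0 : 0 < Real.log x := by linarith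
  set L := Real.log x with hLdef
  set φ : ℝ → ℝ := fun v => L / (2 * Real.pi) * krs h.h 1 x v with hφd
  have hφc : Continuous φ := continuous_const.mul (krs_cont h 1 x)
  have hφi : Integrable φ := (krs_integrable h (le_refl (1 : ℝ)) hx1).const_mul _
  have hφ1 : ∫ v, φ v = 1 := krs_one h hh hx1
  have hφa : ∫ v, |φ v| = c0 := by rw [hc0]; exact krs_abs h hx1
  have hpi : 0 < 2 * Real.pi := by positivity
  have hφe : ∀ γ v : ℝ, |v - γ| * |φ (v - γ)| = L / (2 * Real.pi) * (|v - γ| * |krs h.h 1 x (v - γ)|) := by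
    intro γ v
    simp only [hφd]
    rw [abs_mul, abs_of_pos (by positivity : 0 < L / (2 * Real.pi))]
    ring
  have hφm : ∀ γ, Integrable fun v => |v - γ| * |φ (v - γ)| := by
    intro γ
    simp only [hφe]
    exact (hmom x hx1 γ).1.const_mul _
  have hφM : ∀ γ, ∫ v, |v - γ| * |φ (v - γ)| ≤ C1 / (2 * Real.pi * L) := by
    intro γ
    simp only [hφe]
    rw [integral_const_mul]
    refine (mul_le_mul_of_nonneg_left (hmom x hx1 γ).2 (by positivity)).trans (le_of_eq ?_)
    rw [← hLdef]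
    field_simp
  set S := St K 0 x J with hS
  have hSU : S = Un (fun j => lf K x j + 0 / Real.log x) (fun j => lf K x (j + 1) - 0 / Real.log x) J := rfl
  have hSm : MeasurableSet S := St_meas K 0 x J
  have hSr : (volume S).toReal = J.card * (K / Real.log x) := St_real hx1 (by linarith) J
  have hcard : (J.card : ℝ) * (K / Real.log x) ≤ x / 4 := InW_card hx1 (by linarith) hJ
  have hSf : volume S ≠ ⊤ := by
    rw [hS, St_vol hx1 le_rfl (by linarith) J]
    exact ENNReal.ofReal_ne_top
  have hwc := Pool.Agent.Helper69.SM.wt_cont g x x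
  have hwi := Pool.Agent.Helper69.SM.wt_integrable g x hx0
  have hw0 : ∀ t, 0 ≤ wt g.h x x t := fun t => hg.2.1 _
  have hcore := core (φ := φ) (F := F x) (w := wt g.h x x) (M := C1 / (2 * Real.pi * L)) (A := C0 * x ^ κ)
    (Kw := Kw / x) hφc hφi hφm hφM (hFc x) hFx hwc hwi (by positivity) (fun t u => hlip x x hx0 t u) hSm hSf
    (fun u hu => wt_one hg hx0 (St_sub hx1 (by linarith) le_rfl hJ hu))
  have hsm : ∫ u in S, sm h F x u = ∫ u in S, ∫ t, F x t * φ (t - u) := by
    congr 1
    ext u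
    unfold sm
    rw [← integral_const_mul]
    congr 1
    ext t
    simp only [hφd]
    ring
  rw [hsm]
  refine hcore.trans ?_
  -- first term
  have ht1 : (volume S).toReal * (C0 * x ^ κ * (Kw / x) * (C1 / (2 * Real.pi * L))) ≤ ε / 4 * x := by
    rw [hSr]
    have h1 : (J.card : ℝ) * (K / Real.log x) * (C0 * x ^ κ * (Kw / x) * (C1 / (2 * Real.pi * L))) ≤
        x / 4 * (C0 * x ^ κ * (Kw / x) * (C1 / (2 * Real.pi * L))) :=
      mul_le_mul_of_nonneg_right hcard (by positivity)
    have h2 : x / 4 * (C0 * x ^ κ * (Kw / x) * (C1 / (2 * Real.pi * L))) =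
        1 / 4 * (C0 * Kw * (C1 / (2 * Real.pi))) * x ^ κ / L := by
      field_simp
    have h3 : 1 / 4 * (C0 * Kw * (C1 / (2 * Real.pi))) * x ^ κ / L ≤ 1 / 4 * (C0 * Kw * (C1 / (2 * Real.pi))) * x ^ κ :=
      div_le_self (by positivity) hL1
    rw [Real.rpow_one] at hevx
    linarith
  -- second term
  set D : ℝ → ℝ := fun t => ind S t - psi φ S t with hD
  have hDm : Measurable D := (ind_meas hSm).sub (psi_meas hφc hSm)
  have hDb : ∀ t, |D t| ≤ 1 + c0 := by
    intro t
    have h1 := psi_abs hφi hSm t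
    rw [hφa] at h1
    have h2 := ind_abs S t
    have h3 := abs_sub (ind S t) (psi φ S t)
    simp only [hD]
    linarith
  have hm0 : Integrable fun v => |v| * |φ v| := by simpa using hφm 0
  have hM0 : ∫ v, |v| * |φ v| ≤ C1 / (2 * Real.pi * L) := by simpa using hφM 0
  have hD1 : ∫⁻ t, ENNReal.ofReal |D t| ≤ ENNReal.ofReal (4 * J.card * ∫ v, |v| * |φ v|) := by
    simp only [hD]
    rw [hSU]
    exact psi_L1 hφc hφi hφ1 hm0 _ _ J
  set B : Set ℝ := {t | lam < |D t|} with hB
  have hBm : MeasurableSet B := measurableSet_lt measurable_const (_root_.continuous_abs.measurable.comp hDm)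
  have hBv : volume B ≤ ENNReal.ofReal (η * x) := by
    have h1 : ENNReal.ofReal lam * volume B ≤ ∫⁻ t, ENNReal.ofReal |D t| := by
      have h2 := mul_meas_ge_le_lintegral (μ := volume) (f := fun t => ENNReal.ofReal |D t|)
        (ENNReal.measurable_ofReal.comp (_root_.continuous_abs.measurable.comp hDm)) (ENNReal.ofReal lam)
      refine le_trans (mul_le_mul_right (measure_mono fun t ht => ?_) _) h2
      exact ENNReal.ofReal_le_ofReal (le_of_lt ht)
    have h3 : 4 * J.card * (∫ v, |v| * |φ v|) ≤ lam * (η * x) := by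
      have h4 : (J.card : ℝ) / L ≤ x / (4 * K) := by
        rw [div_le_div_iff₀ hL0 (by positivity)]
        have h5 : (J.card : ℝ) * (K / Real.log x) * L = J.card * K := by
          rw [← hLdef]
          field_simp
        nlinarith
      have h5 : 4 * (J.card : ℝ) * (∫ v, |v| * |φ v|) ≤ 4 * J.card * (C1 / (2 * Real.pi * L)) :=
        mul_le_mul_of_nonneg_left hM0 (by positivity)
      have h6 : 4 * (J.card : ℝ) * (C1 / (2 * Real.pi * L)) = 4 * (C1 / (2 * Real.pi)) * (J.card / L) := by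
        field_simp
      have h7 : 4 * (C1 / (2 * Real.pi)) * ((J.card : ℝ) / L) ≤ 4 * (C1 / (2 * Real.pi)) * (x / (4 * K)) :=
        mul_le_mul_of_nonneg_left h4 (by positivity)
      have h8 : 4 * (C1 / (2 * Real.pi)) * (x / (4 * K)) = C1 / (2 * Real.pi * lam * η) / K * (lam * (η * x)) := by
        field_simp
      have h9 : C1 / (2 * Real.pi * lam * η) / K ≤ 1 := by
        rw [div_le_one (by linarith)]
        exact hK2
      have h10 : C1 / (2 * Real.pi * lam * η) / K * (lam * (η * x)) ≤ 1 * (lam * (η * x)) :=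
        mul_le_mul_of_nonneg_right h9 (by positivity)
      linarith
    have h4 := (h1.trans hD1).trans (ENNReal.ofReal_le_ofReal h3)
    rw [ENNReal.ofReal_mul hlam0.le] at h4
    exact (ENNReal.mul_le_mul_iff_right (by simpa using hlam0) ENNReal.ofReal_ne_top).1 h4
  have hUB := hηx B hBm hBv
  have hiw : Integrable fun t => wt g.h x x t * |F x t| :=
    Pool.Agent.Helper69.SM.wt_mul_integrable g hgth hx0 (hFc x).abs
  have ht2 : |∫ t, wt g.h x x t * F x t * D t| ≤ ε / 2 * x := by
    have h1 : |∫ t, wt g.h x x t * F x t * D t| ≤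
        ∫ t, (lam * (wt g.h x x t * |F x t|) + (1 + c0) * B.indicator (fun t => wt g.h x x t * |F x t|) t) := by
      rw [← Real.norm_eq_abs]
      refine norm_integral_le_of_norm_le ((hiw.const_mul _).add ((hiw.indicator hBm).const_mul _))
        (Eventually.of_forall fun t => ?_)
      have h2 : 0 ≤ wt g.h x x t * |F x t| := mul_nonneg (hw0 t) (abs_nonneg _)
      rw [Real.norm_eq_abs, abs_mul, abs_mul, abs_of_nonneg (hw0 t)]
      by_cases ht : t ∈ B
      · rw [indicator_of_mem ht]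
        have h3 : wt g.h x x t * |F x t| * |D t| ≤ wt g.h x x t * |F x t| * (1 + c0) :=
          mul_le_mul_of_nonneg_left (hDb t) h2
        have h4 : 0 ≤ lam * (wt g.h x x t * |F x t|) := by positivity
        linarith
      · rw [indicator_of_notMem ht, mul_zero, add_zero]
        have h3 : |D t| ≤ lam := not_lt.1 ht
        have h4 : wt g.h x x t * |F x t| * |D t| ≤ wt g.h x x t * |F x t| * lam :=
          mul_le_mul_of_nonneg_left h3 h2
        linarith
    rw [integral_add (hiw.const_mul _) ((hiw.indicator hBm).const_mul _), integral_const_mul, integral_const_mul,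
      integral_indicator hBm] at h1
    have h2 : lam * (∫ t, wt g.h x x t * |F x t|) ≤ ε / 4 * x := by
      have h3 : lam * (∫ t, wt g.h x x t * |F x t|) ≤ lam * (C * x) := mul_le_mul_of_nonneg_left hCx hlam0.le
      have h4 : lam * (C * x) = ε / 4 * x := by
        rw [hlam]
        field_simp
      linarith
    have h3 : (1 + c0) * (∫ t in B, wt g.h x x t * |F x t|) ≤ ε / 4 * x := by
      have h4 : (1 + c0) * (∫ t in B, wt g.h x x t * |F x t|) ≤ (1 + c0) * (ε / (4 * (1 + c0)) * x) :=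
        mul_le_mul_of_nonneg_left hUB (by positivity)
      have h5 : (1 + c0) * (ε / (4 * (1 + c0)) * x) = ε / 4 * x := by
        field_simp
      linarith
    linarith
  have h5 : ε / 4 * x + ε / 2 * x ≤ ε * x := by nlinarith
  linarith

end Pool.Agent.Helper62.ES
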