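import Pool.Agent.Helper69.ES.DefsR
import Pool.Agent.Helper62.ES.Rate

/-!
# ES with a rate: block L1r
-/

set_option autoImplicit false
open MeasureTheory Set Filter Topology
open Pool.Agent.Helper57.Zeta Pool.Agent.Helper57.PC Pool.Agent.Helper57.LH Pool.Agent.Helper78.SG
open Pool.Agent.Helper4.SH Pool.Agent.Helper69.PP Pool.Agent.Helper22.SI
open Pool.Agent.Helper69.SM (wt)
open Pool.Agent.Helper69.ES

namespace Pool.Agent.Helper62.ESR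

/-- L1r -/
theorem smooth_rate {g : TF} (hg : GoodG g) (F : ℝ → ℝ → ℝ) (hFc : ∀ x, Continuous (F x)) (hFb : Crude F) (hL : L2W g F) :
    ∃ C : ℝ, 0 < C ∧ ∀ θ : ℝ, 0 < θ → θ ≤ 1 → ∃ h : TF, h.th ≤ θ ∧ (∀ y, |h.h y| ≤ 1) ∧ h.h 0 = 1 ∧
      ∀ K : ℝ, 1 ≤ K → ∀ᶠ x : ℝ in atTop, ∀ J : Finset ℕ, InW K x J →
        |(∫ t in St K 0 x J, F x t) - ∫ u in St K 0 x J, sm h F x u| ≤ C * (θ * K) ^ (-(1 / 2) : ℝ) * x := by
  obtain ⟨C, hC, hF2⟩ := hL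
  obtain ⟨c1, hc1, hk⟩ := Pool.Agent.Helper62.ES.kern_family
  refine ⟨1 + Real.sqrt (4 * C * c1), by positivity, fun θ hθ hθ1 => ?_⟩
  obtain ⟨h, h1, h2, h3, h4⟩ := hk (θ / 4) (by positivity) (by linarith)
  refine ⟨h, by linarith, h2, h3, fun K hK => ?_⟩
  have hK0 : 0 < K := by linarith
  have hθK : 0 < θ * K := by positivity
  have hε : 0 < (θ * K) ^ (-(1 / 2) : ℝ) := Real.rpow_pos_of_pos hθK _
  have hs : Real.sqrt (C * (c1 / (θ / 4)) / K) = Real.sqrt (4 * C * c1) * (θ * K) ^ (-(1 / 2) : ℝ) := by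
    have e1 : C * (c1 / (θ / 4)) / K = 4 * C * c1 * (θ * K)⁻¹ := by
      field_simp
    rw [e1, Real.sqrt_mul (by positivity), Real.sqrt_eq_rpow (θ * K)⁻¹, Real.inv_rpow hθK.le, ← Real.rpow_neg hθK.le]
  have h5 := Pool.Agent.Helper62.ES.smooth_rate hg h3 F hFc hFb hC hF2 (by positivity : 0 < c1 / (θ / 4)) h4 hε hK0
  rw [hs] at h5
  filter_upwards [h5] with x hx J hJ
  refine (hx J hJ).trans (le_of_eq ?_)
  ring

end Pool.Agent.Helper62.ESR
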